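import Pool.Agent.Lib_helper32.TF.INE
import Pool.Agent.Lib_helper92.RC.Bridge

/-!
# The bridge in the form with `F^(1/2)`
-/

open scoped ComplexOrder MatrixOrder ENNReal
open MeasureTheory Set Matrix

namespace Pool.Agent.RC.INE

open SER

variable {ι : Type} [Fintype ι] [DecidableEq ι]

theorem half_mul_half {F : Matrix ι ι ℂ} (hF : F.PosSemidef) :
    cfc (fun x : ℝ => x ^ (1 / 2 : ℝ)) F * cfc (fun x : ℝ => x ^ (1 / 2 : ℝ)) F = F := by
  have hsa : IsSelfAdjoint F := hF.isHermitian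
  have hc : Continuous fun x : ℝ => x ^ (1 / 2 : ℝ) :=
    continuous_id.rpow_const fun _ => Or.inr (by norm_num)
  rw [← cfc_mul (fun x : ℝ => x ^ (1 / 2 : ℝ)) (fun x : ℝ => x ^ (1 / 2 : ℝ)) F
    hc.continuousOn hc.continuousOn]
  conv_rhs => rw [← cfc_id ℝ F hsa]
  apply cfc_congr
  intro x hx
  have hx0 : 0 ≤ x := by
    obtain ⟨i, rfl⟩ := Set.ext_iff.mp hF.isHermitian.spectrum_real_eq_range_eigenvalues x |>.mp hx
    exact hF.eigenvalues_nonneg i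
  simp only [id]
  rw [← Real.rpow_add_of_nonneg hx0 (by norm_num) (by norm_num)]
  norm_num

theorem half_isHermitian (F : Matrix ι ι ℂ) :
    (cfc (fun x : ℝ => x ^ (1 / 2 : ℝ)) F).IsHermitian :=
  cfc_predicate (fun x : ℝ => x ^ (1 / 2 : ℝ)) F

/-- `(p+1) ∫ Tr (F - sE)_+^p ds = p ∫ s^(p-1) Tr (F^(1/2) (s+E)⁻¹ F^(1/2))^(p+1) ds` -/
theorem rpos_eq_rf {p : ℝ} (hp : 0 < p) {F E : Matrix ι ι ℂ} (hF : F.PosSemidef)
    (hE : E.PosDef) :
    (p + 1) * ∫ s in Ioi (0 : ℝ), trF (fun x => (max x 0) ^ p) (F - (s : ℂ) • E) =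
      p * ∫ s in Ioi (0 : ℝ), s ^ (p - 1) * trF (fun y => y ^ (p + 1))
        (cfc (fun x : ℝ => x ^ (1 / 2 : ℝ)) F * Res E s * cfc (fun x : ℝ => x ^ (1 / 2 : ℝ)) F) :=
  bridge hp (half_isHermitian F) (half_mul_half hF) hE

/-- the same with real scalars and `Tr = Re Tr cfc` -/
theorem rpos_eq_rf' {p : ℝ} (hp : 0 < p) {F E : Matrix ι ι ℂ} (hF : F.PosSemidef)
    (hE : E.PosDef) :
    (p + 1) * ∫ s in Ioi (0 : ℝ), (Matrix.trace (cfc (fun x : ℝ => (max x 0) ^ p) (F - s • E))).re =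
      p * ∫ s in Ioi (0 : ℝ), s ^ (p - 1) * (Matrix.trace (cfc (fun y : ℝ => y ^ (p + 1))
        (cfc (fun x : ℝ => x ^ (1 / 2 : ℝ)) F * Res E s * cfc (fun x : ℝ => x ^ (1 / 2 : ℝ)) F))).re := by
  have h := rpos_eq_rf hp hF hE
  have e1 : ∀ s : ℝ, trF (fun x => (max x 0) ^ p) (F - (s : ℂ) • E) =
      (Matrix.trace (cfc (fun x : ℝ => (max x 0) ^ p) (F - s • E))).re := by
    intro s
    have hs : (s : ℂ) • E = s • E := by
      ext i j
      simp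
    rw [hs, trF_eq_cfc]
    rw [← hs]
    exact hF.isHermitian.sub (isHermitian_real_smul s hE.isHermitian)
  have e2 : ∀ s ∈ Ioi (0 : ℝ), s ^ (p - 1) * trF (fun y => y ^ (p + 1))
      (cfc (fun x : ℝ => x ^ (1 / 2 : ℝ)) F * Res E s * cfc (fun x : ℝ => x ^ (1 / 2 : ℝ)) F) =
      s ^ (p - 1) * (Matrix.trace (cfc (fun y : ℝ => y ^ (p + 1))
        (cfc (fun x : ℝ => x ^ (1 / 2 : ℝ)) F * Res E s *
          cfc (fun x : ℝ => x ^ (1 / 2 : ℝ)) F))).re := by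
    intro s hs
    rw [trF_eq_cfc _ (conj_res_posSemidef (half_isHermitian F) hE (le_of_lt hs)).isHermitian]
  simp_rw [e1] at h
  rw [h]
  congr 1
  exact setIntegral_congr_fun measurableSet_Ioi e2

end Pool.Agent.RC.INE
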