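import Pool.Agent.Lib_helper92.RC.Trf

/-!
# The bridge `(p+1) ∫ Tr (F - sE)_+^p ds = p ∫ x^(p-1) Tr ((S_x)* F S_x)_+^(p+1) dx`
-/

open scoped ComplexOrder MatrixOrder ENNReal
open MeasureTheory Set Matrix

namespace Pool.Agent.RC.INE

open SER

variable {ι : Type} [Fintype ι] [DecidableEq ι]

/-- `x_+^p` -/
noncomputable def pp (p : ℝ) (x : ℝ) : ℝ := (max x 0) ^ p

/-- indicator of `x > 0` -/
noncomputable def i0 (x : ℝ) : ℝ := if 0 < x then 1 else 0

/-! ## Algebra -/

theorem form_conj (S M : Matrix ι ι ℂ) (w : ι → ℂ) :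
    star (S *ᵥ w) ⬝ᵥ (M *ᵥ (S *ᵥ w)) = star w ⬝ᵥ ((Sᴴ * M * S) *ᵥ w) := by
  rw [star_mulVec, ← dotProduct_mulVec, mulVec_mulVec, mulVec_mulVec]

theorem quad {U M : Matrix ι ι ℂ} {c : ι → ℝ}
    (h : Uᴴ * M * U = Matrix.diagonal (fun i => (c i : ℂ))) (a : ι → ℂ) :
    (star (U *ᵥ a) ⬝ᵥ (M *ᵥ (U *ᵥ a))).re = ∑ i, c i * ‖a i‖ ^ 2 := by
  rw [form_conj, h, dotProduct, Complex.re_sum]
  apply Finset.sum_congr rfl
  intro i _
  rw [mulVec_diagonal]
  have : (star a) i * ((c i : ℂ) * a i) = ((c i * ‖a i‖ ^ 2 : ℝ) : ℂ) := by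
    have h1 : (star a) i * a i = ((‖a i‖ ^ 2 : ℝ) : ℂ) := by
      rw [Pi.star_apply, RCLike.star_def, ← Complex.normSq_eq_norm_sq, Complex.normSq_eq_conj_mul_self]
    calc (star a) i * ((c i : ℂ) * a i) = (c i : ℂ) * ((star a) i * a i) := by ring
      _ = _ := by rw [h1]; push_cast; ring
  rw [this, Complex.ofReal_re]

/-- extension by zero -/
noncomputable def ext0 (P : ι → Prop) [DecidablePred P] : ({i // P i} → ℂ) →ₗ[ℂ] (ι → ℂ) where
  toFun a i := if h : P i then a ⟨i, h⟩ else 0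
  map_add' a b := by
    ext i
    by_cases h : P i <;> simp [h]
  map_smul' c a := by
    ext i
    by_cases h : P i <;> simp [h]

theorem ext0_apply (P : ι → Prop) [DecidablePred P] (a : {i // P i} → ℂ) (i : ι) :
    ext0 P a i = if h : P i then a ⟨i, h⟩ else 0 := rfl

theorem ext0_inj (P : ι → Prop) [DecidablePred P] (a : {i // P i} → ℂ) (h : ext0 P a = 0) :
    a = 0 := by
  ext i
  have := congrFun h i.1
  rw [ext0_apply, dif_pos i.2] at this
  simpa using this

open Classical in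
/-- one half of Sylvester's law of inertia -/
theorem card_le {M S : Matrix ι ι ℂ} (hM : M.IsHermitian) (hM' : (Sᴴ * M * S).IsHermitian)
    (hS : IsUnit S) :
    (Finset.univ.filter fun i => 0 < hM.eigenvalues i).card ≤
      (Finset.univ.filter fun i => 0 < hM'.eigenvalues i).card := by
  obtain ⟨U, h1, h2, h3⟩ := exists_diag_eig hM
  obtain ⟨V, g1, g2, g3⟩ := exists_diag_eig hM'
  obtain ⟨T, hT⟩ := hS.exists_right_inv
  have hT' : T * S = 1 := mul_eq_one_comm.mp hT
  set c := hM.eigenvalues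
  set d := hM'.eigenvalues
  let P : ι → Prop := fun i => 0 < c i
  let Q : ι → Prop := fun i => ¬ 0 < d i
  let L : (({i // P i} → ℂ) × ({i // Q i} → ℂ)) →ₗ[ℂ] (ι → ℂ) :=
    ((T * U).mulVecLin ∘ₗ ext0 P) ∘ₗ LinearMap.fst ℂ _ _ -
      (V.mulVecLin ∘ₗ ext0 Q) ∘ₗ LinearMap.snd ℂ _ _
  have hL : Function.Injective L := by
    rw [← LinearMap.ker_eq_bot, LinearMap.ker_eq_bot']
    rintro ⟨a, b⟩ hab
    have e1 : (T * U) *ᵥ ext0 P a = V *ᵥ ext0 Q b := by
      have : (T * U) *ᵥ ext0 P a - V *ᵥ ext0 Q b = 0 := hab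
      exact sub_eq_zero.mp this
    have e2 : S *ᵥ (V *ᵥ ext0 Q b) = U *ᵥ ext0 P a := by
      rw [← e1, mulVec_mulVec, ← mul_assoc, hT, one_mul]
    have q1 := quad h3 (ext0 P a)
    have q2 := quad g3 (ext0 Q b)
    have e3 : star (V *ᵥ ext0 Q b) ⬝ᵥ ((Sᴴ * M * S) *ᵥ (V *ᵥ ext0 Q b)) =
        star (U *ᵥ ext0 P a) ⬝ᵥ (M *ᵥ (U *ᵥ ext0 P a)) := by
      rw [← e2, form_conj S M (V *ᵥ ext0 Q b)]
    rw [e3, q1] at q2
    have hle : ∑ i, d i * ‖ext0 Q b i‖ ^ 2 ≤ 0 := by
      apply Finset.sum_nonpos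
      intro i _
      by_cases hi : Q i
      · exact mul_nonpos_of_nonpos_of_nonneg (not_lt.mp hi) (sq_nonneg _)
      · rw [ext0_apply, dif_neg hi]; simp
    have hz : ∑ i, c i * ‖ext0 P a i‖ ^ 2 ≤ 0 := q2.trans_le hle
    have hterm : ∀ i ∈ Finset.univ, 0 ≤ c i * ‖ext0 P a i‖ ^ 2 := by
      intro i _
      by_cases hi : P i
      · exact mul_nonneg (le_of_lt hi) (sq_nonneg _)
      · rw [ext0_apply, dif_neg hi]; simp
    have hz0 := (Finset.sum_eq_zero_iff_of_nonneg hterm).mp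
      (le_antisymm hz (Finset.sum_nonneg hterm))
    have ha0 : ext0 P a = 0 := by
      ext i
      by_cases hi : P i
      · have := hz0 i (Finset.mem_univ i)
        rcases mul_eq_zero.mp this with h | h
        · exact absurd h (ne_of_gt hi)
        · simpa using h
      · rw [ext0_apply, dif_neg hi]; rfl
    have hb0 : ext0 Q b = 0 := by
      have : V *ᵥ ext0 Q b = 0 := by rw [← e1, ha0, mulVec_zero]
      calc ext0 Q b = (Vᴴ * V) *ᵥ ext0 Q b := by rw [g2, one_mulVec]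
        _ = 0 := by rw [← mulVec_mulVec, this, mulVec_zero]
    rw [ext0_inj P a ha0, ext0_inj Q b hb0]
    rfl
  have hfr := LinearMap.finrank_le_finrank_of_injective hL
  rw [Module.finrank_prod, Module.finrank_fintype_fun_eq_card, Module.finrank_fintype_fun_eq_card,
    Module.finrank_fintype_fun_eq_card, Fintype.card_subtype, Fintype.card_subtype] at hfr
  have hcomp := Finset.card_filter_add_card_filter_not (s := (Finset.univ : Finset ι))
    (fun i => 0 < d i)
  rw [Finset.card_univ] at hcomp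
  change (Finset.univ.filter fun i => 0 < c i).card +
    (Finset.univ.filter fun i => ¬ 0 < d i).card ≤ _ at hfr
  omega

theorem trF_i0 {M : Matrix ι ι ℂ} (hM : M.IsHermitian) :
    trF i0 M = ((Finset.univ.filter fun i => 0 < hM.eigenvalues i).card : ℝ) := by
  unfold trF i0
  rw [dif_pos hM, Finset.sum_ite]
  simp

theorem trF_i0_congr {M S : Matrix ι ι ℂ} (hM : M.IsHermitian) (hS : IsUnit S) :
    trF i0 (Sᴴ * M * S) = trF i0 M := by
  classical
  have hM' : (Sᴴ * M * S).IsHermitian := Matrix.isHermitian_conjTranspose_mul_mul S hM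
  obtain ⟨T, hT⟩ := hS.exists_right_inv
  have hT' : T * S = 1 := mul_eq_one_comm.mp hT
  have hM'' : (Tᴴ * (Sᴴ * M * S) * T).IsHermitian := Matrix.isHermitian_conjTranspose_mul_mul T hM'
  have hback : Tᴴ * (Sᴴ * M * S) * T = M := by
    have : Tᴴ * Sᴴ = 1 := by rw [← conjTranspose_mul, hT, conjTranspose_one]
    calc Tᴴ * (Sᴴ * M * S) * T = (Tᴴ * Sᴴ) * M * (S * T) := by noncomm_ring
      _ = M := by rw [this, hT, one_mul, mul_one]
  have l1 := card_le hM hM' hS
  have l2 := card_le hM' hM'' ((isUnit_iff_exists_inv).mpr ⟨S, hT'⟩)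
  rw [trF_i0 hM', trF_i0 hM]
  have l3 : (Finset.univ.filter fun i => 0 < hM''.eigenvalues i).card =
      (Finset.univ.filter fun i => 0 < hM.eigenvalues i).card := by
    have h1 := trF_i0 hM''
    have h2 := trF_i0 hM
    have h3 : trF i0 (Tᴴ * (Sᴴ * M * S) * T) = trF i0 M := by rw [hback]
    rw [h1, h2] at h3
    exact_mod_cast h3
  have := le_antisymm (l2.trans l3.le) l1
  exact_mod_cast this

theorem trF_shift (f : ℝ → ℝ) {M : Matrix ι ι ℂ} (hM : M.IsHermitian) (y : ℝ) :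
    trF f (M - (y : ℂ) • (1 : Matrix ι ι ℂ)) = ∑ i, f (hM.eigenvalues i - y) := by
  obtain ⟨U, h1, h2, h3⟩ := exists_diag_eig hM
  have e : M - (y : ℂ) • (1 : Matrix ι ι ℂ) =
      U * Matrix.diagonal (fun i => ((hM.eigenvalues i - y : ℝ) : ℂ)) * Uᴴ := by
    have e1 : Matrix.diagonal (fun i => ((hM.eigenvalues i - y : ℝ) : ℂ)) =
        Matrix.diagonal (fun i => (hM.eigenvalues i : ℂ)) - (y : ℂ) • (1 : Matrix ι ι ℂ) := by
      ext i j
      by_cases hij : i = j
      · subst hij; simp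
      · simp [hij]
    rw [e1, ← h3, mul_sub, sub_mul, Matrix.mul_smul, Matrix.smul_mul, mul_one, h1]
    congr 1
    calc M = (U * Uᴴ) * M * (U * Uᴴ) := by rw [h1]; simp
      _ = _ := by noncomm_ring
  rw [e]
  exact TRF.trF_conj f h2 _

/-! ## Measurability -/

section
open Filter Topology

theorem continuous_trF {X : Type} [TopologicalSpace X] [SequentialSpace X] (f : ℝ → ℝ)
    (hf : Continuous f) (M : X → Matrix ι ι ℂ) (hM : Continuous M)
    (hH : ∀ x, (M x).IsHermitian) : Continuous fun x => trF f (M x) := by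
  rw [continuous_iff_seqContinuous]
  intro u x hu
  exact tendsto_trF f hf (fun j => M (u j)) (M x) (fun j => hH _) (hH _) ((hM.tendsto x).comp hu)

theorem tendsto_i0 (y : ℝ) :
    Tendsto (fun n : ℕ => min 1 ((n : ℝ) * max y 0)) atTop (𝓝 (i0 y)) := by
  unfold i0
  split_ifs with h
  · have h1 : Tendsto (fun n : ℕ => (n : ℝ) * max y 0) atTop atTop :=
      tendsto_natCast_atTop_atTop.atTop_mul_const (by positivity)
    apply tendsto_const_nhds.congr'
    filter_upwards [h1.eventually_ge_atTop 1] with n hn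
    rw [min_eq_left hn]
  · have h0 : max y 0 = 0 := max_eq_right (not_lt.mp h)
    simp only [h0, mul_zero]
    apply tendsto_const_nhds.congr
    intro n
    rw [min_eq_right zero_le_one]

theorem measurable_i0 {X : Type} [TopologicalSpace X] [SequentialSpace X] [MeasurableSpace X]
    [BorelSpace X] (M : X → Matrix ι ι ℂ) (hM : Continuous M)
    (hH : ∀ x, (M x).IsHermitian) : Measurable fun x => trF i0 (M x) := by
  refine measurable_of_tendsto_metrizable
    (f := fun (n : ℕ) x => trF (fun y => min 1 ((n : ℝ) * max y 0)) (M x)) ?_ ?_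
  · intro n
    exact (continuous_trF _ (by fun_prop) M hM hH).measurable
  · rw [tendsto_pi_nhds]
    intro x
    unfold trF
    simp only [dif_pos (hH x)]
    apply tendsto_finset_sum
    intro i _
    exact tendsto_i0 _

end

/-! ## Layer cake -/

theorem i0_nonneg (x : ℝ) : 0 ≤ i0 x := by
  unfold i0; split_ifs <;> norm_num

theorem pp_nonneg (p x : ℝ) : 0 ≤ pp p x := Real.rpow_nonneg (le_max_right _ _) _

theorem trF_nonneg {f : ℝ → ℝ} (hf : ∀ x, 0 ≤ f x) (M : Matrix ι ι ℂ) : 0 ≤ trF f M := by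
  unfold trF
  split_ifs
  · exact Finset.sum_nonneg fun _ _ => hf _
  · exact le_rfl

theorem measurable_i0' (c : ℝ) : Measurable fun t : ℝ => i0 (c - t) := by
  have : (fun t : ℝ => i0 (c - t)) = fun t => if t < c then 1 else 0 := by
    ext t; unfold i0; simp
  rw [this]
  exact Measurable.ite measurableSet_Iio measurable_const measurable_const

theorem layer1 {p : ℝ} (hp : 0 < p) (c : ℝ) :
    ENNReal.ofReal (pp p c) = ENNReal.ofReal p *
      ∫⁻ t in Ioi (0 : ℝ), ENNReal.ofReal (i0 (c - t)) * ENNReal.ofReal (t ^ (p - 1)) := by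
  have h := lintegral_rpow_eq_lintegral_meas_lt_mul (μ := Measure.dirac ())
    (f := fun _ : Unit => max c 0) (Filter.Eventually.of_forall fun _ => le_max_right _ _)
    aemeasurable_const hp
  rw [lintegral_dirac] at h
  unfold pp
  rw [h]
  congr 1
  apply setLIntegral_congr_fun measurableSet_Ioi
  intro t ht
  have ht0 : 0 < t := ht
  dsimp only
  congr 1
  by_cases hc : t < c
  · have e : {a : Unit | t < max c 0} = univ := by
      ext; simp [hc]
    rw [e, measure_univ]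
    unfold i0
    rw [if_pos (by linarith)]
    simp
  · have e : {a : Unit | t < max c 0} = ∅ := by
      ext; simp [ht0.le, not_lt.mp hc]
    rw [e, measure_empty]
    unfold i0
    rw [if_neg (by linarith)]
    simp

theorem layer {p : ℝ} (hp : 0 < p) {M : Matrix ι ι ℂ} (hM : M.IsHermitian) :
    ENNReal.ofReal (trF (pp p) M) = ENNReal.ofReal p * ∫⁻ t in Ioi (0 : ℝ),
      ENNReal.ofReal (trF i0 (M - (t : ℂ) • (1 : Matrix ι ι ℂ))) * ENNReal.ofReal (t ^ (p - 1)) := by
  have e1 : ∀ t : ℝ, ENNReal.ofReal (trF i0 (M - (t : ℂ) • (1 : Matrix ι ι ℂ))) =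
      ∑ i, ENNReal.ofReal (i0 (hM.eigenvalues i - t)) := by
    intro t
    rw [trF_shift i0 hM t, ENNReal.ofReal_sum_of_nonneg fun _ _ => i0_nonneg _]
  have e2 : ENNReal.ofReal (trF (pp p) M) = ∑ i, ENNReal.ofReal (pp p (hM.eigenvalues i)) := by
    unfold trF
    rw [dif_pos hM, ENNReal.ofReal_sum_of_nonneg fun _ _ => pp_nonneg _ _]
  simp_rw [e1, Finset.sum_mul]
  rw [lintegral_finset_sum, Finset.mul_sum, e2]
  · exact Finset.sum_congr rfl fun i _ => layer1 hp _
  · intro i _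
    exact ((measurable_i0' _).ennreal_ofReal).mul
      ((measurable_id.pow_const _).ennreal_ofReal)

theorem lintegral_scale (g : ℝ → ℝ≥0∞) {s : ℝ} (hs : 0 < s) :
    ∫⁻ t in Ioi (0 : ℝ), g t = ENNReal.ofReal s * ∫⁻ x in Ioi (0 : ℝ), g (s * x) := by
  have e : (volume : Measure ℝ) = ENNReal.ofReal |s| • Measure.map (s * ·) volume :=
    (Real.smul_map_volume_mul_left hs.ne').symm
  let φ : ℝ ≃ᵐ ℝ := MeasurableEquiv.mulLeft₀ s hs.ne'
  rw [← lintegral_indicator measurableSet_Ioi, ← lintegral_indicator measurableSet_Ioi]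
  conv_lhs => rw [e]
  rw [lintegral_smul_measure, abs_of_pos hs, smul_eq_mul]
  congr 1
  have : ∫⁻ (a : ℝ), (Ioi 0).indicator g a ∂Measure.map (s * ·) volume =
      ∫⁻ (a : ℝ), (Ioi 0).indicator g (φ a) := lintegral_map_equiv _ φ
  rw [this]
  apply lintegral_congr
  intro a
  have hφ : φ a = s * a := rfl
  rw [hφ]
  by_cases ha : 0 < a
  · rw [indicator_of_mem (mem_Ioi.mpr ha), indicator_of_mem (mem_Ioi.mpr (mul_pos hs ha))]
  · have h2 : ¬ 0 < s * a := fun h => ha ((mul_pos_iff_of_pos_left hs).mp h)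
    rw [indicator_of_notMem (by simpa using h2), indicator_of_notMem (by simpa using ha)]

/-! ## The bridge, as an identity of `ℝ≥0∞`-valued integrals -/

section
open Filter Topology

theorem isHermitian_real_smul (s : ℝ) {M : Matrix ι ι ℂ} (hM : M.IsHermitian) :
    ((s : ℂ) • M).IsHermitian := by
  unfold Matrix.IsHermitian
  rw [conjTranspose_smul, hM.eq, RCLike.star_def, Complex.conj_ofReal]

theorem shift_posDef {E : Matrix ι ι ℂ} (hE : E.PosDef) {x : ℝ} (hx : 0 ≤ x) :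
    (E + (x : ℂ) • (1 : Matrix ι ι ℂ)).PosDef := by
  apply hE.add_posSemidef
  have : (x : ℂ) • (1 : Matrix ι ι ℂ) = Matrix.diagonal fun _ => (x : ℂ) := by
    ext i j
    by_cases h : i = j
    · subst h; simp
    · simp [h]
  rw [this]
  apply Matrix.PosSemidef.diagonal
  intro i
  exact Complex.zero_le_real.mpr hx

/-- a congruence turning `E` into `1` -/
theorem exists_congr {E : Matrix ι ι ℂ} (hE : E.PosDef) :
    ∃ S : Matrix ι ι ℂ, IsUnit S ∧ Sᴴ * E * S = 1 ∧ S * Sᴴ = E⁻¹ := by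
  obtain ⟨B, hB⟩ : ∃ B : Matrix ι ι ℂ, E = Bᴴ * B := by
    refine ⟨CFC.sqrt E, ?_⟩
    have h0 : (0 : Matrix ι ι ℂ) ≤ E := hE.posSemidef.nonneg
    have h1 : (CFC.sqrt E).IsHermitian := (CFC.sqrt_nonneg E).posSemidef.isHermitian
    rw [h1.eq, CFC.sqrt_mul_sqrt_self E h0]
  have hEu : IsUnit E := hE.isUnit
  have hdet : IsUnit B.det := by
    have h1 : IsUnit E.det := (Matrix.isUnit_iff_isUnit_det E).mp hEu
    rw [hB, det_mul] at h1
    exact isUnit_of_mul_isUnit_right h1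
  have hBu : IsUnit B := (Matrix.isUnit_iff_isUnit_det B).mpr hdet
  have h1 : B * B⁻¹ = 1 := Matrix.mul_nonsing_inv B hdet
  have h2 : B⁻¹ * B = 1 := Matrix.nonsing_inv_mul B hdet
  refine ⟨B⁻¹, (Matrix.isUnit_nonsing_inv_iff).mpr hBu, ?_, ?_⟩
  · have h3 : (B⁻¹)ᴴ * Bᴴ = 1 := by rw [← conjTranspose_mul, h1, conjTranspose_one]
    calc (B⁻¹)ᴴ * E * B⁻¹ = ((B⁻¹)ᴴ * Bᴴ) * (B * B⁻¹) := by rw [hB]; noncomm_ring
      _ = 1 := by rw [h3, h1, one_mul]
  · rw [hB, Matrix.mul_inv_rev, Matrix.conjTranspose_nonsing_inv]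

theorem trF_mul_comm (f : ℝ → ℝ) (A B : Matrix ι ι ℂ) (h1 : (A * B).IsHermitian)
    (h2 : (B * A).IsHermitian) : trF f (A * B) = trF f (B * A) := by
  rw [TRF.trF_eq_roots f h1, TRF.trF_eq_roots f h2, Matrix.charpoly_mul_comm]

/-- counting function of the pencil -/
theorem count_pencil {F E Q : Matrix ι ι ℂ} (hQ : Q.IsHermitian) (hF : Q * Q = F)
    (hE : E.PosDef) {x : ℝ} (hx : 0 ≤ x) (s : ℝ) :
    trF i0 (F - (s : ℂ) • (E + (x : ℂ) • (1 : Matrix ι ι ℂ))) =
      trF i0 (Q * Res E x * Q - (s : ℂ) • (1 : Matrix ι ι ℂ)) := by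
  have hEx := shift_posDef hE hx
  obtain ⟨S, hS, h1, h2⟩ := exists_congr hEx
  have hFh : F.IsHermitian := by
    rw [← hF]
    have := Matrix.isHermitian_mul_conjTranspose_self Q
    rwa [hQ.eq] at this
  have hM : (F - (s : ℂ) • (E + (x : ℂ) • (1 : Matrix ι ι ℂ))).IsHermitian :=
    hFh.sub (isHermitian_real_smul s hEx.isHermitian)
  rw [← trF_i0_congr hM hS]
  have e : Sᴴ * (F - (s : ℂ) • (E + (x : ℂ) • (1 : Matrix ι ι ℂ))) * S =
      Sᴴ * F * S - (s : ℂ) • (1 : Matrix ι ι ℂ) := by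
    rw [mul_sub, sub_mul, Matrix.mul_smul, Matrix.smul_mul, h1]
  have hY1 : (Sᴴ * F * S).IsHermitian := Matrix.isHermitian_conjTranspose_mul_mul S hFh
  have eR : Q * Res E x * Q = Q * S * (Sᴴ * Q) := by
    unfold Res
    rw [← h2]
    noncomm_ring
  have hY2 : (Q * S * (Sᴴ * Q)).IsHermitian := by
    have := Matrix.isHermitian_mul_conjTranspose_self (Q * S)
    rwa [conjTranspose_mul, hQ.eq] at this
  have hY3 : (Sᴴ * Q * (Q * S)).IsHermitian := by
    have e3 : Sᴴ * Q * (Q * S) = Sᴴ * F * S := by rw [← hF]; noncomm_ring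
    rw [e3]; exact hY1
  rw [e, eR]
  have e4 : Sᴴ * F * S = Sᴴ * Q * (Q * S) := by rw [← hF]; noncomm_ring
  rw [e4]
  have key : ∀ f : ℝ → ℝ, trF f (Sᴴ * Q * (Q * S)) = trF f (Q * S * (Sᴴ * Q)) :=
    fun f => trF_mul_comm f _ _ hY3 hY2
  have t1 := trF_shift i0 hY3 s
  have t2 := trF_shift i0 hY2 s
  have k := key (fun y => i0 (y - s))
  unfold trF at k
  rw [dif_pos hY3, dif_pos hY2] at k
  rw [t1, t2, k]

/-- the bridge as an identity of lower integrals -/
theorem bridge_lintegral {p : ℝ} (hp : 0 < p) {F E Q : Matrix ι ι ℂ} (hQ : Q.IsHermitian)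
    (hF : Q * Q = F) (hE : E.PosDef) :
    ENNReal.ofReal (p + 1) * ∫⁻ s in Ioi (0 : ℝ), ENNReal.ofReal (trF (pp p) (F - (s : ℂ) • E)) =
      ENNReal.ofReal p * ∫⁻ x in Ioi (0 : ℝ),
        ENNReal.ofReal (x ^ (p - 1)) * ENNReal.ofReal (trF (pp (p + 1)) (Q * Res E x * Q)) := by
  have hFh : F.IsHermitian := by
    rw [← hF]
    have := Matrix.isHermitian_mul_conjTranspose_self Q
    rwa [hQ.eq] at this
  have hYh : ∀ x : ℝ, (Q * Res E x * Q).IsHermitian := by
    intro x
    have hR : (Res E x).IsHermitian := by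
      unfold Res
      apply Matrix.IsHermitian.inv
      exact hE.isHermitian.add (isHermitian_real_smul x Matrix.isHermitian_one)
    have := Matrix.isHermitian_conjTranspose_mul_mul Q hR
    rwa [hQ.eq] at this
  -- the two-variable counting function
  let N : ℝ → ℝ → ℝ := fun s x => trF i0 (F - (s : ℂ) • (E + (x : ℂ) • (1 : Matrix ι ι ℂ)))
  have hN : Measurable (Function.uncurry N) := by
    apply measurable_i0 (fun z : ℝ × ℝ => F - (z.1 : ℂ) • (E + (z.2 : ℂ) • (1 : Matrix ι ι ℂ)))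
    · fun_prop
    · intro z
      exact hFh.sub (isHermitian_real_smul z.1
        (hE.isHermitian.add (isHermitian_real_smul z.2 Matrix.isHermitian_one)))
  have hN0 : ∀ s x, 0 ≤ N s x := fun s x => trF_nonneg i0_nonneg _
  have hL : ∀ s ∈ Ioi (0 : ℝ), ENNReal.ofReal (trF (pp p) (F - (s : ℂ) • E)) =
      ∫⁻ x in Ioi (0 : ℝ), ENNReal.ofReal p * (ENNReal.ofReal (x ^ (p - 1)) *
        (ENNReal.ofReal (N s x) * ENNReal.ofReal (s ^ p))) := by
    intro s hs
    have hs0 : 0 < s := hs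
    have hM : (F - (s : ℂ) • E).IsHermitian := hFh.sub (isHermitian_real_smul s hE.isHermitian)
    have e1 : ∀ x ∈ Ioi (0 : ℝ), ENNReal.ofReal p * (ENNReal.ofReal s *
        (ENNReal.ofReal (trF i0 (F - (s : ℂ) • E - (((s * x : ℝ)) : ℂ) • (1 : Matrix ι ι ℂ))) *
          ENNReal.ofReal ((s * x) ^ (p - 1)))) = ENNReal.ofReal p * (ENNReal.ofReal (x ^ (p - 1)) *
        (ENNReal.ofReal (N s x) * ENNReal.ofReal (s ^ p))) := by
      intro x hx
      have hx0 : 0 < x := hx
      have a1 : F - (s : ℂ) • E - (((s * x : ℝ)) : ℂ) • (1 : Matrix ι ι ℂ) =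
          F - (s : ℂ) • (E + (x : ℂ) • (1 : Matrix ι ι ℂ)) := by
        rw [smul_add, smul_smul]
        push_cast
        abel
      have a2 : (s * x) ^ (p - 1) = s ^ (p - 1) * x ^ (p - 1) := Real.mul_rpow hs0.le hx0.le
      have a3 : s ^ p = s * s ^ (p - 1) := by
        rw [Real.rpow_sub_one hs0.ne']
        field_simp
      rw [a1, a2, a3, ENNReal.ofReal_mul (Real.rpow_nonneg hs0.le _), ENNReal.ofReal_mul hs0.le]
      change _ = ENNReal.ofReal p * (ENNReal.ofReal (x ^ (p - 1)) *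
        (ENNReal.ofReal (trF i0 (F - (s : ℂ) • (E + (x : ℂ) • (1 : Matrix ι ι ℂ)))) * _))
      ring
    rw [layer hp hM, lintegral_scale _ hs0, ← lintegral_const_mul' _ _ ENNReal.ofReal_ne_top,
      ← lintegral_const_mul' _ _ ENNReal.ofReal_ne_top]
    exact setLIntegral_congr_fun measurableSet_Ioi e1
  have hR : ∀ x ∈ Ioi (0 : ℝ), ENNReal.ofReal (x ^ (p - 1)) *
      ENNReal.ofReal (trF (pp (p + 1)) (Q * Res E x * Q)) =
      ENNReal.ofReal (x ^ (p - 1)) * (ENNReal.ofReal (p + 1) * ∫⁻ s in Ioi (0 : ℝ),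
        (ENNReal.ofReal (N s x) * ENNReal.ofReal (s ^ p))) := by
    intro x hx
    have hx0 : 0 < x := hx
    rw [layer (by linarith : 0 < p + 1) (hYh x)]
    congr 2
    apply setLIntegral_congr_fun measurableSet_Ioi
    intro s hs
    dsimp only
    rw [← count_pencil hQ hF hE hx0.le s, add_sub_cancel_right]
  rw [setLIntegral_congr_fun measurableSet_Ioi hL, setLIntegral_congr_fun measurableSet_Ioi hR,
    lintegral_lintegral_swap, ← lintegral_const_mul' _ _ ENNReal.ofReal_ne_top,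
    ← lintegral_const_mul' _ _ ENNReal.ofReal_ne_top]
  · apply lintegral_congr
    intro x
    rw [lintegral_const_mul' _ _ ENNReal.ofReal_ne_top, lintegral_const_mul' _ _ ENNReal.ofReal_ne_top]
    ring
  · have m1 : Measurable fun z : ℝ × ℝ => ENNReal.ofReal (z.2 ^ (p - 1)) :=
      (measurable_snd.pow_const _).ennreal_ofReal
    have m2 : Measurable fun z : ℝ × ℝ => ENNReal.ofReal (N z.1 z.2) := hN.ennreal_ofReal
    have m3 : Measurable fun z : ℝ × ℝ => ENNReal.ofReal (z.1 ^ p) :=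
      (measurable_fst.pow_const _).ennreal_ofReal
    exact ((m1.mul (m2.mul m3)).const_mul _).aemeasurable

/-- `M^r` by the functional calculus -/
theorem trF_pp_of_posSemidef {r : ℝ} {Y : Matrix ι ι ℂ} (hY : Y.PosSemidef) :
    trF (pp r) Y = trF (fun x => x ^ r) Y := by
  unfold trF
  rw [dif_pos hY.isHermitian, dif_pos hY.isHermitian]
  apply Finset.sum_congr rfl
  intro i _
  unfold pp
  rw [max_eq_left (hY.eigenvalues_nonneg i)]

theorem continuous_pp {r : ℝ} (hr : 0 ≤ r) : Continuous (pp r) :=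
  (continuous_id.max continuous_const).rpow_const fun _ => Or.inr hr

theorem conj_res_posSemidef {E Q : Matrix ι ι ℂ} (hQ : Q.IsHermitian) (hE : E.PosDef) {x : ℝ}
    (hx : 0 ≤ x) : (Q * Res E x * Q).PosSemidef := by
  have h := (shift_posDef hE hx).inv.posSemidef.conjTranspose_mul_mul_same Q
  rwa [hQ.eq] at h

theorem continuousOn_Ys {E Q : Matrix ι ι ℂ} (hE : E.PosDef) :
    ContinuousOn (fun x : ℝ => Q * Res E x * Q) (Ici 0) := by
  have h : ContinuousOn (fun x : ℝ => Res E x) (Ici 0) := by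
    intro x hx
    apply ContinuousAt.continuousWithinAt
    have hdet : (E + (x : ℂ) • (1 : Matrix ι ι ℂ)).det ≠ 0 :=
      ((Matrix.isUnit_iff_isUnit_det _).mp (shift_posDef hE hx).isUnit).ne_zero
    unfold Res
    have e : (fun y : ℝ => (E + (y : ℂ) • (1 : Matrix ι ι ℂ))⁻¹) = fun y : ℝ =>
        (E + (y : ℂ) • (1 : Matrix ι ι ℂ)).det⁻¹ • (E + (y : ℂ) • (1 : Matrix ι ι ℂ)).adjugate := by
      ext1 y
      rw [Matrix.inv_def, Ring.inverse_eq_inv']
    rw [e]
    have k1 : ContinuousAt (fun y : ℝ => (E + (y : ℂ) • (1 : Matrix ι ι ℂ)).det⁻¹) x := by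
      have k0 : ContinuousAt (fun y : ℝ => (E + (y : ℂ) • (1 : Matrix ι ι ℂ)).det) x := by
        fun_prop
      exact k0.inv₀ hdet
    have k2 : ContinuousAt (fun y : ℝ => (E + (y : ℂ) • (1 : Matrix ι ι ℂ)).adjugate) x := by
      fun_prop
    exact k1.smul k2
  exact (continuousOn_const.mul h).mul continuousOn_const

/-- **the bridge**: `(p+1) ∫ Tr (F - sE)_+^p ds = p ∫ x^(p-1) Tr (Q (x+E)⁻¹ Q)^(p+1) dx`
for `F = Q²` -/
theorem bridge {p : ℝ} (hp : 0 < p) {F E Q : Matrix ι ι ℂ} (hQ : Q.IsHermitian)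
    (hF : Q * Q = F) (hE : E.PosDef) :
    (p + 1) * ∫ s in Ioi (0 : ℝ), trF (fun x => (max x 0) ^ p) (F - (s : ℂ) • E) =
      p * ∫ x in Ioi (0 : ℝ), x ^ (p - 1) * trF (fun y => y ^ (p + 1)) (Q * Res E x * Q) := by
  have hFh : F.IsHermitian := by
    rw [← hF]
    have := Matrix.isHermitian_mul_conjTranspose_self Q
    rwa [hQ.eq] at this
  have hL := bridge_lintegral hp hQ hF hE
  have c1 : Continuous fun s : ℝ => trF (pp p) (F - (s : ℂ) • E) := by
    apply continuous_trF (pp p) (continuous_pp hp.le) (fun s : ℝ => F - (s : ℂ) • E)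
    · fun_prop
    · intro s
      exact hFh.sub (isHermitian_real_smul s hE.isHermitian)
  have c2 : ContinuousOn (fun x : ℝ => trF (pp (p + 1)) (Q * Res E x * Q)) (Ioi 0) := by
    rw [continuousOn_iff_continuous_domRestrict]
    apply continuous_trF (pp (p + 1)) (continuous_pp (by linarith))
      (fun x : Ioi (0 : ℝ) => Q * Res E (x : ℝ) * Q)
    · exact continuousOn_iff_continuous_domRestrict.mp
        ((continuousOn_Ys hE).mono Ioi_subset_Ici_self)
    · intro x
      exact (conj_res_posSemidef hQ hE (le_of_lt x.2)).isHermitian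
  have c3 : ContinuousOn (fun x : ℝ => x ^ (p - 1) * trF (pp (p + 1)) (Q * Res E x * Q))
      (Ioi 0) := by
    apply ContinuousOn.mul _ c2
    intro x hx
    exact (Real.continuousAt_rpow_const x _ (Or.inl (ne_of_gt hx))).continuousWithinAt
  have i1 : ∫ s in Ioi (0 : ℝ), trF (fun x => (max x 0) ^ p) (F - (s : ℂ) • E) =
      (∫⁻ s in Ioi (0 : ℝ), ENNReal.ofReal (trF (pp p) (F - (s : ℂ) • E))).toReal := by
    rw [← integral_eq_lintegral_of_nonneg_ae (Eventually.of_forall fun s => trF_nonneg (pp_nonneg p) _)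
      c1.aestronglyMeasurable]
    rfl
  have i2 : ∫ x in Ioi (0 : ℝ), x ^ (p - 1) * trF (fun y => y ^ (p + 1)) (Q * Res E x * Q) =
      (∫⁻ x in Ioi (0 : ℝ), ENNReal.ofReal (x ^ (p - 1)) *
        ENNReal.ofReal (trF (pp (p + 1)) (Q * Res E x * Q))).toReal := by
    have e : ∫⁻ x in Ioi (0 : ℝ), ENNReal.ofReal (x ^ (p - 1)) *
        ENNReal.ofReal (trF (pp (p + 1)) (Q * Res E x * Q)) =
        ∫⁻ x in Ioi (0 : ℝ), ENNReal.ofReal (x ^ (p - 1) * trF (pp (p + 1)) (Q * Res E x * Q)) := by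
      apply setLIntegral_congr_fun measurableSet_Ioi
      intro x hx
      dsimp only
      rw [ENNReal.ofReal_mul (Real.rpow_nonneg (le_of_lt hx) _)]
    rw [e, ← integral_eq_lintegral_of_nonneg_ae]
    · apply setIntegral_congr_fun measurableSet_Ioi
      intro x hx
      dsimp only
      rw [trF_pp_of_posSemidef (conj_res_posSemidef hQ hE (le_of_lt hx))]
    · filter_upwards [ae_restrict_mem measurableSet_Ioi] with x hx
      exact mul_nonneg (Real.rpow_nonneg (le_of_lt hx) _) (trF_nonneg (pp_nonneg _) _)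
    · exact c3.aestronglyMeasurable measurableSet_Ioi
  rw [i1, i2]
  have h1 := congrArg ENNReal.toReal hL
  rw [ENNReal.toReal_mul, ENNReal.toReal_mul, ENNReal.toReal_ofReal (by linarith),
    ENNReal.toReal_ofReal hp.le] at h1
  exact h1

end

end Pool.Agent.RC.INE
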